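import Pool.Agent.RS.StmtsT

set_option autoImplicit false

/-!
# Row EIV of squad RS (`MP_b2b50d_lc`)
-/

namespace Pool.Agent.RS.H25

open Pool.Agent.RS

/-- Row EIV. -/
theorem eiv : EivStmt := by
  intro B _ _ P x r q lc e ρ α β hA p hp hq hPr
  obtain ⟨h0, hl⟩ := hA
  -- the step down
  have step : ∀ l < r, e (l + 1) ∉ p → e l ∉ p ∧ lc l ∉ p := by
    intro l hlr hel
    obtain ⟨_, _, _, _, _, hρ, he1, _, _⟩ := hl l hlr
    rw [he1] at hel
    refine ⟨fun h => hel ?_, fun h => hel (p.mul_mem_right _ h)⟩
    apply p.mul_mem_left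
    rw [hρ]
    exact p.add_mem (p.mul_mem_left _ (hq l hlr)) (p.mul_mem_left _ h)
  -- the top
  have top : e r ∉ p := by
    rcases Nat.eq_zero_or_pos r with hr | hr
    · subst hr
      rw [h0]
      exact fun h => hp.ne_top ((Ideal.eq_top_iff_one p).mpr h)
    · obtain ⟨s, rfl⟩ : ∃ s, r = s + 1 := ⟨r - 1, by omega⟩
      obtain ⟨_, _, _, hρP, hρ0, _, he1, hlc0, pp, hpp, _, hlead, _⟩ := hl s (Nat.lt_succ_self s)
      intro h
      have hmem : e (s + 1) ∈ P (s + 1) := by
        rw [he1]
        apply Subring.mul_mem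
        · rw [← hlead]
          exact hpp _
        · exact hρP
      have := hPr _ hmem h
      rw [he1] at this
      rcases mul_eq_zero.mp this with h1 | h1
      · exact hlc0 h1
      · exact hρ0 h1
  -- all the way down
  have all : ∀ k, k ≤ r → e (r - k) ∉ p := by
    intro k
    induction k with
    | zero => intro _; simpa using top
    | succ k ih =>
      intro hk
      have h1 := ih (by omega)
      have h2 : r - k = (r - (k + 1)) + 1 := by omega
      rw [h2] at h1
      exact (step (r - (k + 1)) (by omega) h1).1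
  have all' : ∀ l ≤ r, e l ∉ p := by
    intro l hlr
    have := all (r - l) (by omega)
    rwa [show r - (r - l) = l by omega] at this
  exact ⟨all', fun l hlr => (step l hlr (all' (l + 1) hlr)).2⟩

end Pool.Agent.RS.H25
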