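import Pool.Agent.RS.StmtsG
import Pool.Agent.Helper12_UO.Transfer

set_option autoImplicit false

/-!
# Row FRE of squad RS (`MP_b2b50d_lc`): freeing coordinates
-/

namespace Pool.Agent.RS.H25

open Pool.Agent.RS

/-- Row FRE. -/
theorem fre : FreStmt := by
  intro E _ _ n m t J w z y hJ hmt
  classical
  obtain ⟨c, hc⟩ : ∃ c : Fin n → E, c = fun i : Fin n => ((i : ℕ) : E) := ⟨_, rfl⟩
  have hinj : Function.Injective c := by
    intro i k h
    rw [hc] at h
    exact Fin.ext (Nat.cast_injective h)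
  obtain ⟨S, hS⟩ : ∃ S : Finset (Fin n), S = Finset.univ.filter fun i : Fin n => (i : ℕ) ∈ J :=
    ⟨_, rfl⟩
  have hSc : S.card ≤ J.card := by
    apply Finset.card_le_card_of_injOn (fun i : Fin n => (i : ℕ))
    · intro i hi
      rw [hS] at hi
      simpa using hi
    · intro i _ k _ h
      exact Fin.ext h
  obtain ⟨y', hy'⟩ : ∃ y' : Fin n → E, y' = fun i : Fin n =>
    if (i : ℕ) ∈ J then y i else Pool.Agent.UO.SV c w z i := ⟨_, rfl⟩
  have h1 : y' ∈ Pool.Agent.UO.Im c (m + J.card) := by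
    refine Pool.Agent.UO.Im_perturb hinj (y := Pool.Agent.UO.SV c w z) ⟨w, z, rfl⟩ S hSc ?_
    intro i hi
    have hi' : (i : ℕ) ∉ J := by
      intro h
      apply hi
      rw [hS]
      simpa using h
    rw [hy']
    simp only [hi', if_false]
  obtain ⟨w', z', hwz⟩ := Pool.Agent.UO.Im_mono c hmt h1
  refine ⟨w', z', fun i => ?_⟩
  rw [Pool.Agent.UO.point_eq_ext, Pool.Agent.UO.point_eq_ext, ← hc, ← hwz]
  unfold Pool.Agent.UO.extZ
  by_cases hi : i < n
  · simp only [hi, dif_pos]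
    rw [hy']
  · have hiJ : i ∉ J := fun h => hi (hJ i h)
    simp only [hi, dif_neg, not_false_eq_true, hiJ, if_false]

end Pool.Agent.RS.H25
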