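import Pool.Agent.Helper80_RS.Stmts

/-!
# MP_ff6f12_co, module PON: a root saturated in some colour in every `H`-free colouring
-/

open SimpleGraph

namespace Pool.Agent.RS80

theorem free_comap_of_injective {V W K : Type} {H : SimpleGraph W} {G : SimpleGraph V}
    (h : H.Free G) {j : K → V} (hj : Function.Injective j) : H.Free (G.comap j) := by
  intro ⟨f⟩
  refine h ⟨⟨⟨fun x => j (f x), ?_⟩, ?_⟩⟩
  · intro a b hab
    exact f.toHom.map_rel hab
  · intro a b hab
    exact f.injective (hj hab)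

theorem sup_comap {V K : Type} (R S : SimpleGraph V) (j : K → V) :
    (R ⊔ S).comap j = R.comap j ⊔ S.comap j := by
  ext a b
  simp

theorem good_comap {V W K : Type} {H : SimpleGraph W} {G R S : SimpleGraph V}
    (h : Good H G R S) {j : K → V} (hj : Function.Injective j) :
    Good H (G.comap j) (R.comap j) (S.comap j) := by
  obtain ⟨h1, h2, h3⟩ := h
  refine ⟨?_, free_comap_of_injective h2 hj, free_comap_of_injective h3 hj⟩
  rw [← h1, sup_comap]

theorem glue_sup {K L : Type} (R S : SimpleGraph K) (k : K) (R2 S2 : SimpleGraph L) (r : L) :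
    glue R k R2 r ⊔ glue S k S2 r = glue (R ⊔ S) k (R2 ⊔ S2) r := by
  ext (a | x) (b | y)
  · exact Iff.rfl
  · show (a = k ∧ R2.Adj r y) ∨ (a = k ∧ S2.Adj r y) ↔ a = k ∧ (R2.Adj r y ∨ S2.Adj r y)
    tauto
  · show (b = k ∧ R2.Adj r x) ∨ (b = k ∧ S2.Adj r x) ↔ b = k ∧ (R2.Adj r x ∨ S2.Adj r x)
    tauto
  · show (x ≠ r ∧ y ≠ r ∧ R2.Adj x y) ∨ (x ≠ r ∧ y ≠ r ∧ S2.Adj x y) ↔
      x ≠ r ∧ y ≠ r ∧ (R2.Adj x y ∨ S2.Adj x y)
    tauto

open Classical in
/-- The embedding of `L` in `K ⊕ L`. -/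
noncomputable def jmap {K L : Type} (k : K) (r : L) (l : L) : K ⊕ L :=
  if l = r then Sum.inl k else Sum.inr l

theorem jmap_root {K L : Type} (k : K) (r : L) : jmap k r r = Sum.inl k := by
  simp [jmap]

theorem jmap_ne {K L : Type} (k : K) {r l : L} (h : l ≠ r) : jmap k r l = Sum.inr l := by
  simp [jmap, h]

theorem jmap_injective {K L : Type} (k : K) (r : L) : Function.Injective (jmap k r) := by
  intro a b hab
  by_cases ha : a = r
  · by_cases hb : b = r
    · rw [ha, hb]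
    · rw [ha, jmap_root, jmap_ne k hb] at hab
      exact absurd hab (by simp)
  · by_cases hb : b = r
    · rw [hb, jmap_root, jmap_ne k ha] at hab
      exact absurd hab (by simp)
    · rw [jmap_ne k ha, jmap_ne k hb] at hab
      exact Sum.inr_injective hab

theorem glue_comap_inl {K L : Type} (G : SimpleGraph K) (k : K) (Q : SimpleGraph L) (r : L) :
    (glue G k Q r).comap Sum.inl = G := by
  ext a b
  exact Iff.rfl

theorem glue_comap_jmap {K L : Type} (G : SimpleGraph K) (k : K) (Q : SimpleGraph L) (r : L) :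
    (glue G k Q r).comap (jmap k r) = Q := by
  ext a b
  rw [comap_adj]
  by_cases ha : a = r
  · by_cases hb : b = r
    · rw [ha, hb, jmap_root]
      constructor
      · intro h
        exact absurd h (glue G k Q r).irrefl
      · intro h
        exact absurd h Q.irrefl
    · rw [ha, jmap_root, jmap_ne k hb]
      show (k = k ∧ Q.Adj r b) ↔ Q.Adj r b
      simp
  · by_cases hb : b = r
    · rw [hb, jmap_root, jmap_ne k ha]
      show (k = k ∧ Q.Adj r a) ↔ Q.Adj a r
      rw [Q.adj_comm a r]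
      simp
    · rw [jmap_ne k ha, jmap_ne k hb]
      show (a ≠ r ∧ b ≠ r ∧ Q.Adj a b) ↔ Q.Adj a b
      simp [ha, hb]

/-- A graph `F` that arrows `B` but not `pend B Z`. -/
theorem exists_arrow_of_not_equiv {V : Type} [Finite V] (B : SimpleGraph V) (Z : Set V)
    (h : ¬ RamseyEquiv B (pend B Z)) :
    ∃ (n : ℕ) (F : SimpleGraph (Fin n)), Arrows F B ∧ InC (pend B Z) F := by
  have hle : ∀ {n : ℕ} (R : SimpleGraph (Fin n)), pend B Z ⊑ R → B ⊑ R := by
    intro n R ⟨f⟩
    refine ⟨⟨⟨fun x => f (Sum.inl x), ?_⟩, ?_⟩⟩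
    · intro a b hab
      exact f.toHom.map_rel (show (pend B Z).Adj (Sum.inl a) (Sum.inl b) from hab)
    · intro a b hab
      exact Sum.inl_injective (f.injective hab)
  unfold RamseyEquiv at h
  push Not at h
  obtain ⟨n, F, h⟩ := h
  have h2 : Arrows F (pend B Z) → Arrows F B := by
    intro h3 R hR
    exact (h3 R hR).imp (hle R) (hle _)
  have h4 : Arrows F B ∧ ¬ Arrows F (pend B Z) := by
    rcases h with h | h
    · exact h
    · exact absurd (h2 h.2) h.1
  refine ⟨n, F, h4.1, ?_⟩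
  have h5 := h4.2
  unfold Arrows at h5
  push Not at h5
  obtain ⟨R, hR, h6, h7⟩ := h5
  exact ⟨R, F \ R, sup_sdiff_cancel_right hR, fun ⟨f⟩ => h6.false f, fun ⟨f⟩ => h7.false f⟩

/-- The induction. -/
theorem pon_step (hg : GluStmt) {V : Type} [Finite V] (B : SimpleGraph V) (Z : Set V)
    (hB : TwoConn B) {K0 : Type} [Finite K0] (F : SimpleGraph K0) (hF : InC (pend B Z) F)
    {L : Type} [Finite L] (M : SimpleGraph L) (r : L) (hM : InC (pend B Z) M)
    (hMr : ∀ R S, Good (pend B Z) M R S → (∃ x, R.Adj r x) ∧ (∃ y, S.Adj r y))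
    (hno : ¬ ∃ (L : Type) (_ : Finite L) (Q : SimpleGraph L) (t : L), InC (pend B Z) Q ∧
      ∀ R S, Good (pend B Z) Q R S → Sat B Z R t ∨ Sat B Z S t) (X : Finset K0) :
    ∃ (K : Type) (_ : Finite K) (G : SimpleGraph K) (ι : K0 → K) (own : K → K0),
      Function.Injective ι ∧ F ≤ G.comap ι ∧ InC (pend B Z) G ∧
      ∀ R S, Good (pend B Z) G R S → ∀ x ∈ X,
        (∃ y, y ∉ Set.range ι ∧ own y = x ∧ R.Adj (ι x) y) ∧
        (∃ y, y ∉ Set.range ι ∧ own y = x ∧ S.Adj (ι x) y) := by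
  classical
  induction X using Finset.induction_on with
  | empty =>
    exact ⟨K0, inferInstance, F, id, id, Function.injective_id, le_rfl, hF,
      fun R S _ x hx => absurd hx (Finset.notMem_empty x)⟩
  | insert v X hv ih =>
    obtain ⟨K, hK, G, ι, own, hι, hFG, hG, hX⟩ := ih
    have hno1 : ∃ R S, Good (pend B Z) G R S ∧ ¬ Sat B Z R (ι v) ∧ ¬ Sat B Z S (ι v) := by
      by_contra hcon
      push Not at hcon
      exact hno ⟨K, hK, G, ι v, hG, fun R S h => by
        by_cases h1 : Sat B Z R (ι v)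
        · exact Or.inl h1
        · exact Or.inr (hcon R S h h1)⟩
    have hno2 : ∃ R S, Good (pend B Z) M R S ∧ ¬ Sat B Z R r ∧ ¬ Sat B Z S r := by
      by_contra hcon
      push Not at hcon
      exact hno ⟨L, inferInstance, M, r, hM, fun R S h => by
        by_cases h1 : Sat B Z R r
        · exact Or.inl h1
        · exact Or.inr (hcon R S h h1)⟩
    obtain ⟨R1, S1, ⟨g1, g2, g3⟩, g4, g5⟩ := hno1
    obtain ⟨R2, S2, ⟨k1, k2, k3⟩, k4, k5⟩ := hno2
    refine ⟨K ⊕ L, inferInstance, glue G (ι v) M r, fun x => Sum.inl (ι x),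
      Sum.elim own (fun _ => v), Sum.inl_injective.comp hι, ?_, ?_, ?_⟩
    · intro a b hab
      exact hFG hab
    · refine ⟨glue R1 (ι v) R2 r, glue S1 (ι v) S2 r, ?_, ?_, ?_⟩
      · rw [glue_sup, g1, k1]
      · exact hg V B Z hB K L R1 (ι v) R2 r g2 k2 (fun h => g4 h.1) (fun h => k4 h.1)
      · exact hg V B Z hB K L S1 (ι v) S2 r g3 k3 (fun h => g5 h.1) (fun h => k5 h.1)
    · intro R S hRS x hx
      rcases Finset.mem_insert.1 hx with rfl | hx
      · have h1 := good_comap hRS (jmap_injective (ι x) r)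
        rw [glue_comap_jmap] at h1
        obtain ⟨⟨y, hy⟩, ⟨y', hy'⟩⟩ := hMr _ _ h1
        have hyr : y ≠ r := fun h => (SimpleGraph.irrefl _) (h ▸ hy)
        have hyr' : y' ≠ r := fun h => (SimpleGraph.irrefl _) (h ▸ hy')
        rw [comap_adj, jmap_root, jmap_ne _ hyr] at hy
        rw [comap_adj, jmap_root, jmap_ne _ hyr'] at hy'
        exact ⟨⟨Sum.inr y, fun ⟨w, hw⟩ => by simp at hw, rfl, hy⟩,
          ⟨Sum.inr y', fun ⟨w, hw⟩ => by simp at hw, rfl, hy'⟩⟩
      · have h1 := good_comap hRS (j := (Sum.inl : K → K ⊕ L)) Sum.inl_injective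
        rw [glue_comap_inl] at h1
        obtain ⟨⟨y, hy, ho, hy2⟩, ⟨y', hy', ho', hy2'⟩⟩ := hX _ _ h1 x hx
        exact ⟨⟨Sum.inl y, fun ⟨w, hw⟩ => hy ⟨w, Sum.inl_injective hw⟩, ho, hy2⟩,
          ⟨Sum.inl y', fun ⟨w, hw⟩ => hy' ⟨w, Sum.inl_injective hw⟩, ho', hy2'⟩⟩

/-- A copy of `B` with private extra neighbours contains `pend B Z`. -/
theorem pend_of_private {V K0 K : Type} (B : SimpleGraph V) (Z : Set V) (R : SimpleGraph K)
    (ι : K0 → K) (own : K → K0) (hι : Function.Injective ι)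
    (h : ∀ x, ∃ y, y ∉ Set.range ι ∧ own y = x ∧ R.Adj (ι x) y)
    (hB : B ⊑ R.comap ι) : pend B Z ⊑ R := by
  obtain ⟨f⟩ := hB
  choose p hp1 hp2 hp3 using h
  refine ⟨⟨⟨Sum.elim (fun x => ι (f x)) (fun z => p (f z.1)), ?_⟩, ?_⟩⟩
  · rintro (a | a) (b | b) hab
    · exact f.toHom.map_rel (show B.Adj a b from hab)
    · have hab' : a = b.1 := hab
      subst hab'
      exact hp3 _
    · have hab' : b = a.1 := hab
      subst hab'
      exact (hp3 _).symm
    · exact absurd hab (fun h => h)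
  · rintro (a | a) (b | b) hab
    · exact congrArg _ (f.injective (hι hab))
    · exact absurd ⟨f a, hab⟩ (hp1 (f b.1))
    · exact absurd ⟨f b, hab.symm⟩ (hp1 (f a.1))
    · have h1 : own (p (f a.1)) = own (p (f b.1)) := congrArg own hab
      rw [hp2, hp2] at h1
      exact congrArg _ (Subtype.ext (f.injective h1))

theorem pon (hm : MixStmt) (hg : GluStmt) : PonStmt := by
  intro V _ B Z hB hc hZ hne
  by_contra hno
  obtain ⟨L, hL, M, r, hM, hMr⟩ := hm V B Z hB hc hZ
  obtain ⟨n, F, hFB, hF⟩ := exists_arrow_of_not_equiv B Z hne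
  obtain ⟨K, hK, G, ι, own, hι, hFG, ⟨R, S, hRS⟩, hX⟩ :=
    pon_step hg B Z hB F hF M r hM hMr hno Finset.univ
  have h1 := hX R S hRS
  have h2 : F ⊓ R.comap ι ≤ F := inf_le_left
  obtain ⟨hsup, hR, hS⟩ := hRS
  rcases hFB _ h2 with h3 | h3
  · refine hR (pend_of_private B Z R ι own hι (fun x => (h1 x (Finset.mem_univ x)).1) ?_)
    exact h3.trans (IsContained.of_le inf_le_right)
  · refine hS (pend_of_private B Z S ι own hι (fun x => (h1 x (Finset.mem_univ x)).2) ?_)
    refine h3.trans (IsContained.of_le ?_)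
    intro a b hab
    rw [sdiff_adj] at hab
    have h4 : G.Adj (ι a) (ι b) := hFG hab.1
    rw [← hsup, sup_adj] at h4
    rcases h4 with h4 | h4
    · exact absurd ⟨hab.1, h4⟩ hab.2
    · exact h4

end Pool.Agent.RS80
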