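import Pool.Agent.RS.StmtsF

set_option autoImplicit false

/-!
# Row STE of squad RS (`MP_b2b50d_lc`): the step
-/

namespace Pool.Agent.RS.H25

open Pool.Agent.RS
open MvPolynomial

/-- Change of one value. -/
theorem upd {X : Type} (f : ℕ → X) (i : ℕ) (x : X) :
    ∃ f' : ℕ → X, (∀ l, l ≠ i → f' l = f l) ∧ f' i = x := by
  classical
  exact ⟨Function.update f i x, fun l hl => Function.update_of_ne hl _ _, Function.update_self _ _ _⟩

/-- Row STE. -/
theorem ste (hbnd : BndStmt) (hpic : PicStmt) (hpjb : PjbStmt) (htxc : TxcStmt) (hfac : FacStmt)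
    (hdsm : DsmStmt) (htrs : TrsStmt) (hstc : StcStmt) (hnmt : NmtStmt) : SteStmt := by
  obtain ⟨F, G, hFG, hB1, hB2⟩ := hbnd
  refine ⟨F, G, fun R => (hFG R).1, ?_⟩
  intro E _ ι _ _ a0 b0 Q R i j q lc e ρ α β Lf a b hQ hst ⟨p, hp, hpe, hpole⟩
  obtain ⟨hch, heP, he0, hed, hR1, hR2, hR3, hR4, hnum⟩ := hst
  obtain ⟨hjj, he00, hch⟩ := hch
  obtain ⟨P1, P2, P3, P4, P5, P6, P7, P8⟩ := hpjb E
  have hRG : R ≤ G R := (hFG R).1
  have hb0 : ∀ t, b t ≠ 0 := fun t => (hR4 t).2.2.2.1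
  obtain ⟨J, hJ⟩ : ∃ J : Finset ℕ, J = (Finset.range i).image j := ⟨_, rfl⟩
  have hPJ : Pj E j i = PJ E J := by rw [hJ]; rfl
  rw [hPJ] at heP
  -- the pole
  obtain ⟨t₀, ht₀⟩ := hpic E ι a b p hb0 hp hpole
  have hbt : ∀ t, b t ∈ PJ E J := fun t => hPJ ▸ (hR4 t).2.2.1
  have hat : ∀ t, a t ∈ PJ E J := fun t => hPJ ▸ (hR4 t).2.1
  have hpP : p ∈ PJ E J := (P6 J p (b t₀) (hb0 t₀) ht₀).1 (hbt t₀)
  have hpd : p.totalDegree ≤ R := (P6 J p (b t₀) (hb0 t₀) ht₀).2.trans (hR4 t₀).2.2.2.2.2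
  obtain ⟨m, hm⟩ := P7 p hp
  have hmJ : m ∉ J := (P1 J p).1 hpP m hm
  -- the relation
  obtain ⟨α₀, β₀, ρ₀, hρ, hρ0, hmρ, hαd, hβd, hρd, hJ₀⟩ := hB1 R E m p (e i) hp hm hpe hpd hed
  obtain ⟨hαP, hβP, hρP⟩ := hJ₀ J hmJ hpP heP
  -- detection
  obtain ⟨c, hc, hlam⟩ := hdsm E ι a b p m R hb0
    (fun t => ⟨(hR4 t).2.2.2.2.1, (hR4 t).2.2.2.2.2⟩) hpd hp hm hpole
  have hc' : c < (R + 1) * R :=
    lt_of_lt_of_le hc (Nat.mul_le_mul_left _ (((htxc E m p).2.2.1).trans hpd))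
  -- the new terms
  choose a₁ b₁ hf1 hf2 hf3 hf4 hf5 hf6 hf7 using fun t =>
    hfac E p (a t) (b t) R hp (hb0 t) hpd (hR4 t).2.2.2.2.1 (hR4 t).2.2.2.2.2
  choose a' b' hg1 hg2 hg3 hg4 hg5 hg6 using fun t =>
    hB2 R E m c p (a₁ t) (b₁ t) hc' hpd (hf1 t) (hf2 t) hm hp (hf3 t)
  have hap : ∀ t, a' t ∈ PJ E (insert m J) ∧ b' t ∈ PJ E (insert m J) := fun t =>
    hg4 t J hpP (hf7 t J hpP (hat t) (hbt t)).1 (hf7 t J hpP (hat t) (hbt t)).2
  -- the new chain
  obtain ⟨j', hj', hji⟩ := upd j i m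
  obtain ⟨q', hq', hqi⟩ := upd q i p
  obtain ⟨lc', hlc', hlci⟩ := upd lc i (lcx m p)
  obtain ⟨ρ', hρ', hρi⟩ := upd ρ i ρ₀
  obtain ⟨α', hα', hαi⟩ := upd α i α₀
  obtain ⟨β', hβ', hβi⟩ := upd β i β₀
  obtain ⟨e', he', hei⟩ := upd e (i + 1) (lcx m p * ρ₀)
  have hP : ∀ l, l ≤ i → Pj E j' l = Pj E j l := by
    intro l hl
    have h1 : (Finset.range l).image j' = (Finset.range l).image j :=
      Finset.image_congr fun x hx =>
        hj' x (ne_of_lt (lt_of_lt_of_le (Finset.mem_range.1 (Finset.mem_coe.1 hx)) hl))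
    unfold Pj
    rw [h1]
  have hPi : Pj E j' (i + 1) = PJ E (insert m J) := by
    have h1 : (Finset.range (i + 1)).image j' = insert m J := by
      rw [Finset.range_add_one, Finset.image_insert, hji, hJ]
      congr 1
      exact Finset.image_congr fun x hx =>
        hj' x (ne_of_lt (Finset.mem_range.1 (Finset.mem_coe.1 hx)))
    unfold Pj
    rw [h1]
  have hPi' : Pj E j' i = PJ E J := by rw [hP i le_rfl, hPJ]
  have hjne : ∀ l < i, j' i ≠ j' l := by
    intro l hl h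
    rw [hji, hj' l (ne_of_lt hl)] at h
    apply hmJ
    rw [hJ, h]
    exact Finset.mem_image_of_mem _ (Finset.mem_range.2 hl)
  have hprod : ∀ l, l ≤ i → ∏ k ∈ Finset.range l, q' k = ∏ k ∈ Finset.range l, q k := by
    intro l hl
    exact Finset.prod_congr rfl fun k hk =>
      hq' k (ne_of_lt (lt_of_lt_of_le (Finset.mem_range.1 hk) hl))
  have hei' : e' i = e i := he' i (by omega)
  have hlcP : lcx m p ∈ PJ E (insert m J) := P4 J m p hpP _
  have hlc0 : lcx m p ≠ 0 := by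
    intro h
    have h1 : toX m p = 0 := Polynomial.leadingCoeff_eq_zero.1 h
    apply hp.ne_zero
    apply toX_injective m
    rw [h1, map_zero]
  have hlcd : (lcx m p).totalDegree ≤ R := ((htxc E m p).1 _).trans hpd
  -- properties of the new map
  obtain ⟨hN1, hN2, hN3⟩ := hstc E i j' q' e' ρ₀ α₀ β₀ c Lf hjne
    (by
      intro l hl
      rcases Nat.lt_or_eq_of_le hl with h | h
      · rw [hP l hl, hq' l (ne_of_lt h)]
        refine ⟨(hch l h).1, ?_⟩
        intro h0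
        have := (hch l h).2.2.2.2.2.2.2.1
        rw [h0] at this
        simp at this
      · subst h
        rw [hPi', hqi]
        exact ⟨hpP, hp.ne_zero⟩)
    (by rw [hji, hqi]; exact hm) (by rw [hPi', hei']; exact heP) (by rw [hei']; exact he0)
    (by rw [hPi']; exact hαP) (by rw [hPi']; exact hβP) (by rw [hqi, hei']; exact hρ) hρ0
    (by rw [hPi]; exact hρP) (by rw [hei, hji, hqi])
    (by rw [hP i le_rfl]; exact hR1)
    (by rw [hP i le_rfl, hei', hprod i le_rfl]; exact hR2)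
    (by
      intro l hl f u s hu
      rw [hP l hl.le, hP (l + 1) hl, hq' l (ne_of_lt hl)] at hu
      rw [hprod l hl.le]
      exact hR3 l hl f u s hu)
  rw [hji, hqi] at hN1 hN2 hN3
  -- the terms
  have hio0 : ∀ f : MvPolynomial ℕ E, f ≠ 0 → io E f ≠ 0 := by
    intro f hf h
    exact hf (io_injective (by rw [h, map_zero]))
  have hterm : ∀ t, lam m p c (io E (a t) / io E (b t)) = io E (a' t) / io E (b' t) := by
    intro t
    rw [← hg5 t]
    congr 1
    have hb1 := hio0 _ (hb0 t)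
    have hp1 := hio0 _ hp.ne_zero
    have hb2 := hio0 _ (hf4 t)
    have h1 := congrArg (io E) (hf6 t)
    rw [map_mul, map_mul, map_mul, map_pow] at h1
    rw [div_eq_div_iff hb1 (mul_ne_zero (pow_ne_zero _ hp1) hb2)]
    exact h1.symm
  refine ⟨j', q', lc', e', ρ', α', β', (lam m p c).comp Lf, a', b',
    fun l hl => hj' l (ne_of_lt hl), ⟨⟨?_, ?_, ?_⟩, ?_, ?_, ?_, ?_, ?_, ?_, ?_, ?_⟩, ?_⟩
  · intro l hl k hk
    rcases Nat.lt_or_eq_of_le (Nat.le_of_lt_succ hl) with h | h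
    · rw [hj' l (ne_of_lt h), hj' k (by omega)]
      exact hjj l h k hk
    · subst h
      exact hjne k hk
  · rw [he' 0 (by omega), he00]
  · intro l hl
    rcases Nat.lt_or_eq_of_le (Nat.le_of_lt_succ hl) with h | h
    · have hl' : l ≠ i := ne_of_lt h
      rw [hP l h.le, hP (l + 1) h, hq' l hl', hα' l hl', hβ' l hl', hρ' l hl', hlc' l hl', hj' l hl',
        he' l (by omega), he' (l + 1) (by omega)]
      exact hch l h
    · subst h
      rw [hPi', hPi, hqi, hαi, hβi, hρi, hei, hlci, hji, hei']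
      exact ⟨hpP, hαP, hβP, hρP, hρ0, hρ, rfl, hm, rfl, hpd.trans (hRG.trans hQ),
        hed.trans (hRG.trans hQ), hρd.trans hQ, hαd.trans hQ, hβd.trans hQ⟩
  · rw [hei, hPi]
    exact Subring.mul_mem _ hlcP hρP
  · rw [hei]
    exact mul_ne_zero hlc0 hρ0
  · rw [hei]
    exact (totalDegree_mul _ _).trans ((Nat.add_le_add hlcd hρd).trans (hFG R).2)
  · exact hN1
  · exact hN2
  · exact hN3
  · intro t
    refine ⟨?_, ?_, ?_, hg3 t, hg1 t, hg2 t⟩
    · rw [AddMonoidHom.comp_apply, (hR4 t).1, hterm t]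
    · rw [hPi]; exact (hap t).1
    · rw [hPi]; exact (hap t).2
  · apply ((hnmt ι).2.2 E a' b' hg3).2.1
    have h1 : total a' b' = lam m p c (total a b) := by
      unfold total
      rw [map_sum]
      exact Finset.sum_congr rfl fun t _ => (hterm t).symm
    rw [h1]
    exact hlam
  · rw [hji]
    exact htrs E ι m (R + 1) c p a b a₁ b₁ a' b' (fun t => ⟨hf4 t, hf6 t⟩)
      (fun t L _ φ hφ => hg6 t L φ hφ)

end Pool.Agent.RS.H25
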